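import Mathlib
import Pool.Agent.R43.NCUpper
import Pool.Agent.R43.NCLower

/-!
The Newton covering number of the cube (MP_a2070a_co): it is at most `d + 1` for every `d ≥ 1`,
at least `3` for every `d ≥ 2`, and equal to `2` and `3` for `d = 1` and `d = 2`.
-/

set_option autoImplicit false

namespace Pool.Agent.Results.MP_a2070a_co.NewtonBounds

/-- `d`-dimensional Euclidean space. -/
abbrev E (d : ℕ) : Type := EuclideanSpace ℝ (Fin d)

/-- The unit cube `[0,1]^d`. -/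
def cube (d : ℕ) : Set (E d) := {x | ∀ i, 0 ≤ x i ∧ x i ≤ 1}

/-- `K` is a congruent copy of `C`: an image of `C` under an isometry of the space. -/
def IsCopy {d : ℕ} (C K : Set (E d)) : Prop := ∃ g : E d ≃ᵢ E d, K = g '' C

/-- The union of some `n` congruent copies of `C` contains an open set containing `C`. -/
def CoversNbhd {d : ℕ} (C : Set (E d)) (n : ℕ) : Prop :=
  ∃ K : Fin n → Set (E d), (∀ i, IsCopy C (K i)) ∧ ∃ U : Set (E d), IsOpen U ∧ C ⊆ U ∧ U ⊆ ⋃ i, K i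

/-- The Newton covering number of `C`. -/
noncomputable def Nstar {d : ℕ} (C : Set (E d)) : ℕ := sInf {n | CoversNbhd C n}

theorem mono {d : ℕ} {C : Set (E d)} {n m : ℕ} (h : CoversNbhd C n) (hnm : n ≤ m) :
    CoversNbhd C m := by
  obtain ⟨K, hK, U, hU, hCU, hUK⟩ := h
  refine ⟨fun i => if h : i.val < n then K ⟨i.val, h⟩ else C, ?_, U, hU, hCU, ?_⟩
  · intro i
    by_cases h : i.val < n
    · show IsCopy C (if h : i.val < n then K ⟨i.val, h⟩ else C)
      rw [dif_pos h]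
      exact hK _
    · show IsCopy C (if h : i.val < n then K ⟨i.val, h⟩ else C)
      rw [dif_neg h]
      exact ⟨IsometryEquiv.refl _, (Set.image_id' C).symm⟩
  · intro x hx
    obtain ⟨i, hi⟩ := Set.mem_iUnion.mp (hUK hx)
    refine Set.mem_iUnion.mpr ⟨⟨i.val, i.isLt.trans_le hnm⟩, ?_⟩
    show x ∈ (if h : i.val < n then K ⟨i.val, h⟩ else C)
    rw [dif_pos i.isLt]
    exact hi

theorem covers (d : ℕ) : CoversNbhd (cube d) (d + 1) := by
  have hcov := R43NC.cover (ι := Fin d)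
  rw [Fintype.card_fin] at hcov
  obtain ⟨A, hA⟩ := hcov
  refine ⟨fun i => (A i).symm '' cube d, fun i => ⟨(A i).symm, rfl⟩,
    ⋃ i, (A i) ⁻¹' R43NC.Ob (Fin d), ?_, ?_, ?_⟩
  · exact isOpen_iUnion fun i => R43NC.Ob_isOpen.preimage (A i).continuous
  · intro x hx
    obtain ⟨i, hi⟩ := hA x hx
    exact Set.mem_iUnion.mpr ⟨i, hi⟩
  · intro x hx
    obtain ⟨i, hi⟩ := Set.mem_iUnion.mp hx
    refine Set.mem_iUnion.mpr ⟨i, A i x, ?_, IsometryEquiv.symm_apply_apply _ _⟩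
    intro j
    have h1 := hi j
    exact ⟨h1.1.le, h1.2.le⟩

theorem not_two {d : ℕ} (hd : 2 ≤ d) : ¬ CoversNbhd (cube d) 2 := by
  rintro ⟨K, hK, U, hU, hCU, hUK⟩
  choose g hg using hK
  refine R43NC.not_two (ι := Fin d) (by simpa using hd) g U hU hCU ?_
  intro x hx
  obtain ⟨i, hi⟩ := Set.mem_iUnion.mp (hUK hx)
  exact Set.mem_iUnion.mpr ⟨i, by rw [hg i] at hi; exact hi⟩

theorem not_one {d : ℕ} (hd : 1 ≤ d) : ¬ CoversNbhd (cube d) 1 := by
  rintro ⟨K, hK, U, hU, hCU, hUK⟩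
  choose g hg using hK
  refine R43NC.not_one (ι := Fin d) (by simpa using hd) g U hU hCU ?_
  intro x hx
  obtain ⟨i, hi⟩ := Set.mem_iUnion.mp (hUK hx)
  exact Set.mem_iUnion.mpr ⟨i, by rw [hg i] at hi; exact hi⟩

theorem nonempty (d : ℕ) : {n | CoversNbhd (cube d) n}.Nonempty := ⟨d + 1, covers d⟩

theorem mem (d : ℕ) : CoversNbhd (cube d) (Nstar (cube d)) := Nat.sInf_mem (nonempty d)

theorem upper (d : ℕ) : Nstar (cube d) ≤ d + 1 := Nat.sInf_le (covers d)

theorem lower3 {d : ℕ} (hd : 2 ≤ d) : 3 ≤ Nstar (cube d) := by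
  by_contra hc
  push Not at hc
  exact not_two hd (mono (mem d) (by omega))

theorem lower2 {d : ℕ} (hd : 1 ≤ d) : 2 ≤ Nstar (cube d) := by
  by_contra hc
  push Not at hc
  exact not_one hd (mono (mem d) (by omega))

/-- For every `d ≥ 1`, some `d + 1` congruent copies of the unit `d`-cube cover a neighbourhood of
it, so `N^*(C^d) ≤ d + 1`; for every `d ≥ 2` one has `N^*(C^d) ≥ 3`; and `N^*(C^1) = 2`,
`N^*(C^2) = 3`. -/
theorem result :
    (∀ d : ℕ, 1 ≤ d → CoversNbhd (cube d) (d + 1) ∧ Nstar (cube d) ≤ d + 1) ∧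
    (∀ d : ℕ, 2 ≤ d → 3 ≤ Nstar (cube d)) ∧
    Nstar (cube 1) = 2 ∧ Nstar (cube 2) = 3 :=
  ⟨fun d _ => ⟨covers d, upper d⟩, fun _ hd => lower3 hd,
    le_antisymm (upper 1) (lower2 le_rfl), le_antisymm (upper 2) (lower3 le_rfl)⟩

end Pool.Agent.Results.MP_a2070a_co.NewtonBounds
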